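import Pool.Agent.Lib.MP_8f946f_al.Defs

/-!
# Varieties generated by soluble-by-(bounded dimension) Lie algebras (MP_8f946f_al): definitions
-/

set_option autoImplicit false

namespace Pool.Agent.Lib.MP_8f946f_al.BD

variable (F : Type) [Field F]

/-- The Lie algebra `S` over `F` has an ideal `R`, soluble of derived length at most `l`, such that
`S/R` is (isomorphic to) a Lie algebra `Q` of dimension at most `d` over some field `K` which
contains `F`. The ideal is the kernel of the surjective morphism `π : S → Q`. -/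
def SolubleByBounded (l d : ℕ) (S : Type) [LieRing S] [LieAlgebra F S] : Prop :=
  ∃ (K : Type) (_ : Field K) (_ : Algebra F K) (Q : Type) (_ : LieRing Q) (_ : LieAlgebra F Q)
    (_ : LieAlgebra K Q) (_ : IsScalarTower F K Q) (π : S →ₗ⁅F⁆ Q), Function.Surjective π ∧
    FiniteDimensional K Q ∧ Module.finrank K Q ≤ d ∧
    LieAlgebra.derivedSeriesOfIdeal F S l π.ker = ⊥

variable {F}

/-- The variety defined by `Γ` is generated by algebras of the type in `SolubleByBounded`, for fixed
`l` and `d`: an element of the free Lie algebra which is not an identity of the variety is not an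
identity of some algebra of this type in the variety. -/
def BoundedType (Γ : Set (FreeLieAlgebra F ℕ)) : Prop :=
  ∃ l d : ℕ, ∀ φ : FreeLieAlgebra F ℕ,
    (∃ (L : Type) (_ : LieRing L) (_ : LieAlgebra F L), Satisfies Γ L ∧ ¬ Satisfies {φ} L) →
    ∃ (S : Type) (_ : LieRing S) (_ : LieAlgebra F S), Satisfies Γ S ∧ ¬ Satisfies {φ} S ∧
      SolubleByBounded F l d S

/-- The homogeneous component of degree `k` in `x` and `1` in `f` and `g` of a monic identity. -/
def HM (K Q : Type) [Field K] [LieRing Q] [LieAlgebra K Q] (k : ℕ) (γ : ℕ → K) : Prop :=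
  ∀ x f g : Q, ⁅((LieAlgebra.ad K Q x) ^ k) f, g⁆ =
    ∑ j ∈ Finset.range k, γ j • ((LieAlgebra.ad K Q x) ^ (k - j)) ⁅((LieAlgebra.ad K Q x) ^ j) f, g⁆

end Pool.Agent.Lib.MP_8f946f_al.BD
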