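import Pool.Agent.Lib.MP_8f946f_al.Main
import Pool.Agent.Lib.MP_8f946f_al.BD.Defs

/-!
# The homogeneous component of a monic identity over a large field
-/

set_option autoImplicit false

namespace Pool.Agent.Lib.MP_8f946f_al.BD

open Polynomial TensorProduct

variable (F : Type) [Field F]

/-- The free Lie algebra with scalars extended to `F[X]`. -/
def PL : Type := F[X] ⊗[F] FreeLieAlgebra F ℕ

noncomputable instance instLieRingPL : LieRing (PL F) :=
  inferInstanceAs (LieRing (F[X] ⊗[F] FreeLieAlgebra F ℕ))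

noncomputable instance instLieAlgebraPL : LieAlgebra F (PL F) :=
  inferInstanceAs (LieAlgebra F (F[X] ⊗[F] FreeLieAlgebra F ℕ))

variable {F}

/-- pure tensors -/
noncomputable def tm (p : F[X]) (ψ : FreeLieAlgebra F ℕ) : PL F := p ⊗ₜ[F] ψ

theorem tm_lie (p q : F[X]) (ψ χ : FreeLieAlgebra F ℕ) :
    ⁅tm p ψ, tm q χ⁆ = tm (p * q) ⁅ψ, χ⁆ := rfl

@[elab_as_elim]
theorem PL_ind {motive : PL F → Prop} (z : PL F) (h0 : motive 0) (ht : ∀ p ψ, motive (tm p ψ))
    (ha : ∀ x y, motive x → motive y → motive (x + y)) : motive z :=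
  TensorProduct.induction_on (motive := fun z => motive z) z h0 ht ha

variable (F) in
/-- the coefficient of `X^i` -/
noncomputable def cf (i : ℕ) : PL F →ₗ[F] FreeLieAlgebra F ℕ :=
  (TensorProduct.lid F (FreeLieAlgebra F ℕ)).toLinearMap ∘ₗ
    (LinearMap.rTensor (FreeLieAlgebra F ℕ) (Polynomial.lcoeff F i))

theorem cf_tmul (i : ℕ) (p : F[X]) (ψ : FreeLieAlgebra F ℕ) :
    cf F i (tm p ψ) = p.coeff i • ψ := by
  change (TensorProduct.lid F (FreeLieAlgebra F ℕ))
    ((LinearMap.rTensor (FreeLieAlgebra F ℕ) (Polynomial.lcoeff F i)) (p ⊗ₜ[F] ψ)) = _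
  simp

theorem cf_lie (n : ℕ) (y z : PL F) : cf F n ⁅y, z⁆ =
    ∑ ij ∈ Finset.HasAntidiagonal.antidiagonal n, ⁅cf F ij.1 y, cf F ij.2 z⁆ := by
  refine PL_ind y ?_ ?_ ?_
  · rw [zero_lie, map_zero]
    symm
    refine Finset.sum_eq_zero fun ij _ => ?_
    rw [map_zero, zero_lie]
  · intro p ψ
    refine PL_ind z ?_ ?_ ?_
    · rw [lie_zero, map_zero]
      symm
      refine Finset.sum_eq_zero fun ij _ => ?_
      rw [map_zero, lie_zero]
    · intro q χ
      rw [tm_lie, cf_tmul, Polynomial.coeff_mul, Finset.sum_smul]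
      refine Finset.sum_congr rfl fun ij _ => ?_
      rw [cf_tmul, cf_tmul, smul_lie, lie_smul, smul_smul]
    · intro z z' hz hz'
      rw [lie_add, map_add, hz, hz', ← Finset.sum_add_distrib]
      refine Finset.sum_congr rfl fun ij _ => ?_
      rw [map_add, lie_add]
  · intro y y' hy hy'
    rw [add_lie, map_add, hy, hy', ← Finset.sum_add_distrib]
    refine Finset.sum_congr rfl fun ij _ => ?_
    rw [map_add, add_lie]

/-- elements divisible by `X^m` -/
noncomputable def gi (m : ℕ) : LieIdeal F (PL F) where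
  carrier := {z | ∀ i < m, cf F i z = 0}
  zero_mem' := fun i _ => map_zero _
  add_mem' := by
    intro a b ha hb i hi
    rw [map_add, ha i hi, hb i hi, add_zero]
  smul_mem' := by
    intro c a ha i hi
    rw [map_smul, ha i hi, smul_zero]
  lie_mem := by
    intro y z hz i hi
    rw [cf_lie]
    refine Finset.sum_eq_zero fun ij hij => ?_
    have h := Finset.HasAntidiagonal.mem_antidiagonal.1 hij
    rw [hz ij.2 (by omega), lie_zero]

theorem mem_gi (m : ℕ) (z : PL F) : z ∈ gi (F := F) m ↔ ∀ i < m, cf F i z = 0 := Iff.rfl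

theorem lie_gi (m n : ℕ) : ⁅gi (F := F) m, gi (F := F) n⁆ ≤ gi (m + n) := by
  rw [LieSubmodule.lie_le_iff]
  intro y hy z hz i hi
  rw [cf_lie]
  refine Finset.sum_eq_zero fun ij hij => ?_
  have h := Finset.HasAntidiagonal.mem_antidiagonal.1 hij
  by_cases h1 : ij.1 < m
  · rw [hy _ h1, zero_lie]
  · rw [hz _ (by omega), lie_zero]

theorem third_gi (b : ℕ) : third (gi (F := F) b) (gi b) ≤ gi (3 * b) := by
  have h1 : third (gi (F := F) b) (gi b) ≤ ⁅gi (F := F) b, gi (F := F) (b + b)⁆ := by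
    unfold third
    exact LieSubmodule.mono_lie (sup_le le_rfl le_rfl) (lie_gi b b)
  refine h1.trans ((lie_gi b (b + b)).trans (le_of_eq ?_))
  congr 1
  omega

theorem tmul_mem_gi (b : ℕ) (ψ : FreeLieAlgebra F ℕ) :
    tm ((X : F[X]) ^ b) ψ ∈ gi (F := F) b := by
  intro i hi
  rw [cf_tmul, Polynomial.coeff_X_pow, if_neg (by omega), zero_smul]

/-- The substitution `x_0 ↦ X x_0`, `x_1 ↦ X^b x_1`, `x_2 ↦ X^b x_2`. -/
noncomputable def G (b : ℕ) : FreeLieAlgebra F ℕ →ₗ⁅F⁆ PL F :=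
  FreeLieAlgebra.lift F (fun n => if n = 0 then tm (X : F[X]) (FreeLieAlgebra.of F 0) else
    if n = 1 then tm ((X : F[X]) ^ b) (FreeLieAlgebra.of F 1) else
    if n = 2 then tm ((X : F[X]) ^ b) (FreeLieAlgebra.of F 2) else 0)

theorem G_zero (b : ℕ) : G (F := F) b (FreeLieAlgebra.of F 0) =
    tm (X : F[X]) (FreeLieAlgebra.of F 0) := by
  rw [G, FreeLieAlgebra.lift_of_apply]
  simp

theorem G_one (b : ℕ) : G (F := F) b (FreeLieAlgebra.of F 1) =
    tm ((X : F[X]) ^ b) (FreeLieAlgebra.of F 1) := by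
  rw [G, FreeLieAlgebra.lift_of_apply]
  simp

theorem G_two (b : ℕ) : G (F := F) b (FreeLieAlgebra.of F 2) =
    tm ((X : F[X]) ^ b) (FreeLieAlgebra.of F 2) := by
  rw [G, FreeLieAlgebra.lift_of_apply]
  simp

theorem G_third (b : ℕ) (w : FreeLieAlgebra F ℕ) (hw : w ∈ freeThird F) :
    G (F := F) b w ∈ gi (F := F) (3 * b) := by
  refine third_gi b (LieIdeal.mem_comap.1 (third_le_comap (G (F := F) b) _ _ (gi b) (gi b)
    ?_ ?_ hw))
  · rw [LieSubmodule.lieSpan_le, Set.singleton_subset_iff]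
    change G (F := F) b _ ∈ gi (F := F) b
    rw [G_one]
    exact tmul_mem_gi b _
  · rw [LieSubmodule.lieSpan_le, Set.singleton_subset_iff]
    change G (F := F) b _ ∈ gi (F := F) b
    rw [G_two]
    exact tmul_mem_gi b _

theorem ad_pow_tmul (x ψ : FreeLieAlgebra F ℕ) (m j : ℕ) :
    ((LieAlgebra.ad F (PL F) (tm (X : F[X]) x)) ^ j) (tm ((X : F[X]) ^ m) ψ) =
      tm ((X : F[X]) ^ (m + j)) (((LieAlgebra.ad F (FreeLieAlgebra F ℕ) x) ^ j) ψ) := by
  induction j with
  | zero => simp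
  | succ j ih =>
    rw [pow_succ', Module.End.mul_apply, ih, LieAlgebra.ad_apply,
      tm_lie, pow_succ' ((LieAlgebra.ad F _) x),
      Module.End.mul_apply, LieAlgebra.ad_apply]
    congr 1
    ring

theorem cf_aeval (x ψ : FreeLieAlgebra F ℕ) (m k j : ℕ) (hj : j ≤ k) (p : F[X]) :
    cf F (m + k) ((aeval (LieAlgebra.ad F (PL F) (tm (X : F[X]) x)) p)
      (tm ((X : F[X]) ^ (m + j)) ψ)) =
      p.coeff (k - j) • ((LieAlgebra.ad F (FreeLieAlgebra F ℕ) x) ^ (k - j)) ψ := by
  induction p using Polynomial.induction_on' with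
  | add p q hp hq =>
    rw [map_add, LinearMap.add_apply, map_add, hp, hq, coeff_add, add_smul]
  | monomial i a =>
    rw [aeval_monomial, Module.End.mul_apply, Module.algebraMap_end_apply, ad_pow_tmul, map_smul,
      cf_tmul, Polynomial.coeff_X_pow, Polynomial.coeff_monomial]
    by_cases h : i = k - j
    · rw [if_pos (by omega), if_pos h, one_smul, h]
    · rw [if_neg (by omega), if_neg h, zero_smul, zero_smul, smul_zero]

theorem cf_monic (b k : ℕ) (c : ℕ → F[X]) :
    cf F (2 * b + k) (G (F := F) b (monicForm k c (FreeLieAlgebra.of F 0) (FreeLieAlgebra.of F 1)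
      (FreeLieAlgebra.of F 2))) =
      ⁅((LieAlgebra.ad F (FreeLieAlgebra F ℕ) (FreeLieAlgebra.of F 0)) ^ k)
        (FreeLieAlgebra.of F 1), FreeLieAlgebra.of F 2⁆ -
      ∑ j ∈ Finset.range k, (c j).coeff (k - j) •
        ((LieAlgebra.ad F (FreeLieAlgebra F ℕ) (FreeLieAlgebra.of F 0)) ^ (k - j))
          ⁅((LieAlgebra.ad F (FreeLieAlgebra F ℕ) (FreeLieAlgebra.of F 0)) ^ j)
            (FreeLieAlgebra.of F 1), FreeLieAlgebra.of F 2⁆ := by
  rw [monicForm_map, G_zero, G_one, G_two, monicForm, map_sub, map_sum]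
  have hbr : ∀ j : ℕ, ⁅((LieAlgebra.ad F (PL F) (tm (X : F[X]) (FreeLieAlgebra.of F 0))) ^ j)
      (tm ((X : F[X]) ^ b) (FreeLieAlgebra.of F 1)),
      tm ((X : F[X]) ^ b) (FreeLieAlgebra.of F 2)⁆ =
      tm ((X : F[X]) ^ (2 * b + j)) ⁅((LieAlgebra.ad F (FreeLieAlgebra F ℕ)
        (FreeLieAlgebra.of F 0)) ^ j) (FreeLieAlgebra.of F 1), FreeLieAlgebra.of F 2⁆ := by
    intro j
    rw [ad_pow_tmul, tm_lie]
    congr 1
    ring
  congr 1
  · rw [hbr, cf_tmul, Polynomial.coeff_X_pow, if_pos rfl, one_smul]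
  · refine Finset.sum_congr rfl fun j hj => ?_
    rw [hbr, cf_aeval _ _ _ _ _ (Finset.mem_range.1 hj).le]

/-! ### evaluation -/

section evt

variable {K Q : Type} [Field K] [Algebra F K] [LieRing Q] [LieAlgebra F Q] [LieAlgebra K Q]
  [IsScalarTower F K Q]

/-- evaluation at `X = t`, `x_i = v_i`, as a linear map -/
noncomputable def evl (t : K) (v : ℕ → Q) : PL F →ₗ[F] Q :=
  TensorProduct.lift (LinearMap.mk₂ F (fun (p : F[X]) (ψ : FreeLieAlgebra F ℕ) =>
    (aeval t p) • FreeLieAlgebra.lift F v ψ)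
    (by intro p q ψ; rw [map_add, add_smul])
    (by intro a p ψ; rw [map_smul, smul_assoc])
    (by intro p ψ χ; rw [map_add, smul_add])
    (by
      intro a p ψ
      rw [map_smul, ← algebraMap_smul K a (FreeLieAlgebra.lift F v ψ),
        ← algebraMap_smul K a ((aeval t p) • FreeLieAlgebra.lift F v ψ), smul_comm]))

theorem evl_tmul (t : K) (v : ℕ → Q) (p : F[X]) (ψ : FreeLieAlgebra F ℕ) :
    evl t v (tm p ψ) = (aeval t p) • FreeLieAlgebra.lift F v ψ := by
  change TensorProduct.lift _ (p ⊗ₜ[F] ψ) = _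
  rw [TensorProduct.lift.tmul, LinearMap.mk₂_apply]

/-- evaluation at `X = t`, `x_i = v_i` -/
noncomputable def evt (t : K) (v : ℕ → Q) : PL F →ₗ⁅F⁆ Q :=
  { evl t v with
    map_lie' := by
      intro y z
      change evl t v ⁅y, z⁆ = ⁅evl t v y, evl t v z⁆
      refine PL_ind y ?_ ?_ ?_
      · rw [zero_lie, map_zero, zero_lie]
      · intro p ψ
        refine PL_ind z ?_ ?_ ?_
        · rw [lie_zero, map_zero, lie_zero]
        · intro q χ
          rw [tm_lie, evl_tmul, evl_tmul, evl_tmul, map_mul,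
            LieHom.map_lie, smul_lie, lie_smul, smul_smul]
        · intro z z' hz hz'
          rw [lie_add, map_add, hz, hz', map_add, lie_add]
      · intro y y' hy hy'
        rw [add_lie, map_add, hy, hy', map_add, add_lie] }

theorem evt_tmul (t : K) (v : ℕ → Q) (p : F[X]) (ψ : FreeLieAlgebra F ℕ) :
    evt t v (tm p ψ) = (aeval t p) • FreeLieAlgebra.lift F v ψ := evl_tmul t v p ψ

theorem evt_G (φ : FreeLieAlgebra F ℕ) (hQ : Satisfies {φ} Q) (b : ℕ) (t : K) (v : ℕ → Q) :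
    evt t v (G (F := F) b φ) = 0 := by
  have h : (evt t v).comp (G (F := F) b) =
      FreeLieAlgebra.lift F (fun n => evt t v (G (F := F) b (FreeLieAlgebra.of F n))) := by
    apply FreeLieAlgebra.hom_ext
    intro x
    rw [LieHom.comp_apply, FreeLieAlgebra.lift_of_apply]
  rw [← LieHom.comp_apply, h]
  exact hQ φ rfl _

end evt

theorem evt_eq (z : PL F) : ∃ D : ℕ, ∀ D' : ℕ, D ≤ D' → ∀ (K Q : Type) [Field K] [Algebra F K]
    [LieRing Q] [LieAlgebra F Q] [LieAlgebra K Q] [IsScalarTower F K Q] (t : K) (v : ℕ → Q),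
    evt t v z = ∑ i ∈ Finset.range D', t ^ i • FreeLieAlgebra.lift F v (cf F i z) := by
  refine PL_ind z ?_ ?_ ?_
  · refine ⟨0, fun D' _ K Q _ _ _ _ _ _ t v => ?_⟩
    rw [map_zero]
    symm
    refine Finset.sum_eq_zero fun i _ => ?_
    rw [map_zero, map_zero, smul_zero]
  · intro p ψ
    refine ⟨p.natDegree + 1, fun D' h K Q _ _ _ _ _ _ t v => ?_⟩
    rw [evt_tmul, aeval_eq_sum_range' (by omega : p.natDegree < D'), Finset.sum_smul]
    refine Finset.sum_congr rfl fun i _ => ?_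
    rw [cf_tmul, map_smul, smul_assoc, smul_comm]
  · intro z z' hz hz'
    obtain ⟨D, hD⟩ := hz
    obtain ⟨D₁, hD₁⟩ := hz'
    refine ⟨max D D₁, fun D' h K Q _ _ _ _ _ _ t v => ?_⟩
    rw [map_add, hD D' ((le_max_left _ _).trans h), hD₁ D' ((le_max_right _ _).trans h),
      ← Finset.sum_add_distrib]
    refine Finset.sum_congr rfl fun i _ => ?_
    rw [map_add, map_add, smul_add]

/-- Over a large field the homogeneous components of an identity are identities. -/
theorem cf_eq_zero (z : PL F) (i : ℕ) : ∃ D : ℕ, ∀ (K Q : Type) [Field K] [Algebra F K]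
    [LieRing Q] [LieAlgebra F Q] [LieAlgebra K Q] [IsScalarTower F K Q],
    (∃ s : Finset K, D ≤ s.card) → (∀ (t : K) (v : ℕ → Q), evt t v z = 0) →
    ∀ v : ℕ → Q, FreeLieAlgebra.lift F v (cf F i z) = 0 := by
  obtain ⟨D, hD⟩ := evt_eq z
  refine ⟨max D (i + 1), fun K Q _ _ _ _ _ _ hs hz v => ?_⟩
  obtain ⟨s, hs⟩ := hs
  rw [← Module.forall_dual_apply_eq_zero_iff K]
  intro l
  set P : K[X] := ∑ j ∈ Finset.range (max D (i + 1)),
    C (l (FreeLieAlgebra.lift F v (cf F j z))) * X ^ j with hP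
  have hdeg : P.degree < (s.card : WithBot ℕ) := by
    refine lt_of_lt_of_le ?_ (Nat.cast_le.2 hs)
    refine (Polynomial.degree_sum_fin_lt (n := max D (i + 1))
      (fun j => l (FreeLieAlgebra.lift F v (cf F j z)))).trans_eq' ?_
    rw [hP, Finset.sum_range]
  have h0 : P = 0 := by
    refine Polynomial.eq_zero_of_degree_lt_of_eval_finset_eq_zero s hdeg fun t _ => ?_
    have h1 := hD (max D (i + 1)) (le_max_left _ _) K Q t v
    rw [hz] at h1
    rw [hP, Polynomial.eval_finsetSum]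
    have h2 : l (∑ i ∈ Finset.range (max D (i + 1)),
        t ^ i • FreeLieAlgebra.lift F v (cf F i z)) = 0 := by
      rw [← h1, map_zero]
    rw [map_sum] at h2
    rw [← h2]
    refine Finset.sum_congr rfl fun j _ => ?_
    rw [map_smul, eval_mul, eval_C, eval_pow, eval_X, smul_eq_mul, mul_comm]
  have h3 : P.coeff i = l (FreeLieAlgebra.lift F v (cf F i z)) := by
    rw [hP, Polynomial.finsetSum_coeff]
    simp_rw [Polynomial.coeff_C_mul, Polynomial.coeff_X_pow]
    rw [Finset.sum_eq_single i]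
    · rw [if_pos rfl, mul_one]
    · intro j _ hj
      rw [if_neg (Ne.symm hj), mul_zero]
    · intro h
      exact absurd (Finset.mem_range.2 (lt_of_lt_of_le (Nat.lt_succ_self i) (le_max_right _ _))) h
  rw [← h3, h0, coeff_zero]

theorem ad_pow_tower {K Q : Type} [Field K] [Algebra F K] [LieRing Q] [LieAlgebra F Q]
    [LieAlgebra K Q] (x y : Q) (n : ℕ) :
    ((LieAlgebra.ad F Q x) ^ n) y = ((LieAlgebra.ad K Q x) ^ n) y := by
  induction n with
  | zero => simp
  | succ n ih =>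
    rw [pow_succ', pow_succ', Module.End.mul_apply, Module.End.mul_apply, ih, LieAlgebra.ad_apply,
      LieAlgebra.ad_apply]

/-- A monic identity has a homogeneous consequence over large fields. -/
theorem hm_of_monic (k : ℕ) (c : ℕ → F[X]) (w : FreeLieAlgebra F ℕ) (hw : w ∈ freeThird F) :
    ∃ D : ℕ, ∀ (K Q : Type) [Field K] [Algebra F K] [LieRing Q] [LieAlgebra F Q]
    [LieAlgebra K Q] [IsScalarTower F K Q],
    Satisfies {monicForm k c (FreeLieAlgebra.of F 0) (FreeLieAlgebra.of F 1)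
      (FreeLieAlgebra.of F 2) - w} Q → (∃ s : Finset K, D ≤ s.card) →
    HM K Q k (fun j => algebraMap F K ((c j).coeff (k - j))) := by
  set φ := monicForm k c (FreeLieAlgebra.of F 0) (FreeLieAlgebra.of F 1)
      (FreeLieAlgebra.of F 2) - w with hφ
  obtain ⟨D, hD⟩ := cf_eq_zero (G (F := F) (k + 1) φ) (2 * (k + 1) + k)
  refine ⟨D, fun K Q _ _ _ _ _ _ hQ hs x f g => ?_⟩
  have h := hD K Q hs (fun t v => evt_G φ hQ (k + 1) t v)
    (fun n => if n = 0 then x else if n = 1 then f else g)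
  rw [hφ, map_sub, map_sub, G_third (k + 1) w hw _ (by omega), sub_zero, cf_monic, map_sub,
    map_sum, LieHom.map_lie, hom_ad_pow] at h
  simp_rw [map_smul, hom_ad_pow, LieHom.map_lie, hom_ad_pow, FreeLieAlgebra.lift_of_apply] at h
  simp only [if_true, if_false, one_ne_zero, OfNat.ofNat_ne_zero, OfNat.ofNat_ne_one] at h
  rw [sub_eq_zero] at h
  simp_rw [ad_pow_tower (F := F) (K := K)] at h
  rw [h]
  refine Finset.sum_congr rfl fun j _ => ?_
  rw [algebraMap_smul]

end Pool.Agent.Lib.MP_8f946f_al.BD
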