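import Pool.Agent.Lib.MP_8f946f_al.BD.Defs

/-!
# The Fitting one component is an ideal
-/

set_option autoImplicit false

namespace Pool.Agent.Lib.MP_8f946f_al.BD

variable {K Q : Type} [Field K] [LieRing Q] [LieAlgebra K Q]

/-- `ad x` is a derivation. -/
theorem ad_lie' (x y z : Q) : ⁅y, (LieAlgebra.ad K Q x) z⁆ =
    (LieAlgebra.ad K Q x) ⁅y, z⁆ - ⁅(LieAlgebra.ad K Q x) y, z⁆ := by
  simp only [LieAlgebra.ad_apply]
  rw [leibniz_lie x y z]
  abel

theorem range_pow_le (T : Module.End K Q) {m n : ℕ} (h : m ≤ n) {z : Q}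
    (hz : z ∈ LinearMap.range (T ^ n)) : z ∈ LinearMap.range (T ^ m) := by
  obtain ⟨y, rfl⟩ := hz
  obtain ⟨r, rfl⟩ := Nat.exists_eq_add_of_le h
  exact ⟨(T ^ r) y, by rw [pow_add, Module.End.mul_apply]⟩

/-- Elements killed by a power of `ad x` map the Fitting one component into itself. -/
theorem lie_ker_range (x : Q) : ∀ (N : ℕ) (y : Q), ((LieAlgebra.ad K Q x) ^ N) y = 0 →
    ∀ (m : ℕ) (z : Q), ⁅y, ((LieAlgebra.ad K Q x) ^ (m + N)) z⁆ ∈
      LinearMap.range ((LieAlgebra.ad K Q x) ^ m) := by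
  intro N
  induction N with
  | zero =>
    intro y hy m z
    rw [pow_zero, Module.End.one_apply] at hy
    rw [hy, zero_lie]
    exact Submodule.zero_mem _
  | succ N ihN =>
    intro y hy m
    induction m with
    | zero =>
      intro z
      rw [pow_zero]
      exact ⟨_, rfl⟩
    | succ m ihm =>
      intro z
      have e : m + 1 + (N + 1) = (m + 1 + N) + 1 := by omega
      rw [e, pow_succ' ((LieAlgebra.ad K Q) x) (m + 1 + N), Module.End.mul_apply, ad_lie']
      refine Submodule.sub_mem _ ?_ ?_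
      · have e2 : m + 1 + N = m + (N + 1) := by omega
        rw [e2]
        obtain ⟨u, hu⟩ := ihm z
        rw [← hu]
        exact ⟨u, by rw [pow_succ', Module.End.mul_apply]⟩
      · refine ihN _ ?_ (m + 1) z
        rw [pow_succ, Module.End.mul_apply] at hy
        exact hy

/-- The Fitting decomposition of `ad x`, with an exponent. -/
theorem fitting [FiniteDimensional K Q] (T : Module.End K Q) : ∃ N : ℕ, 1 ≤ N ∧
    IsCompl (LinearMap.ker (T ^ N)) (LinearMap.range (T ^ N)) ∧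
    ∀ m, LinearMap.range (T ^ N) ≤ LinearMap.range (T ^ m) := by
  have h1 := (LinearMap.eventually_isCompl_ker_pow_range_pow T).and
    ((LinearMap.eventually_iInf_range_pow_eq T).and (Filter.eventually_ge_atTop 1))
  obtain ⟨N, h2, h3, h4⟩ := h1.exists
  refine ⟨N, h4, h2, fun m => ?_⟩
  rw [← h3]
  exact iInf_le _ m

/-- The Fitting one component of `ad x` is an ideal. -/
theorem one_ideal [FiniteDimensional K Q] {k : ℕ} {γ : ℕ → K} (h : HM K Q k γ) (x : Q) :
    ∃ I : LieIdeal K Q, (x ∈ I → x = 0) ∧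
      (I = ⊥ → IsNilpotent (LieAlgebra.ad K Q x)) := by
  set T := LieAlgebra.ad K Q x with hT
  obtain ⟨N, hN1, hN, hNm⟩ := fitting T
  -- `T` is surjective on the one component
  have hsur : ∀ z ∈ LinearMap.range (T ^ N), ∀ m : ℕ, ∃ y ∈ LinearMap.range (T ^ N),
      (T ^ m) y = z := by
    intro z hz m
    obtain ⟨u, hu⟩ := hNm (m + N) hz
    exact ⟨(T ^ N) u, ⟨u, rfl⟩, by rw [← Module.End.mul_apply, ← pow_add, hu]⟩
  have hstab : ∀ z ∈ LinearMap.range (T ^ N), ∀ m : ℕ, (T ^ m) z ∈ LinearMap.range (T ^ N) := by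
    rintro z ⟨u, rfl⟩ m
    exact ⟨(T ^ m) u, by rw [← Module.End.mul_apply, ← Module.End.mul_apply, ← pow_add,
      ← pow_add, add_comm]⟩
  -- the span of the brackets
  let W : Submodule K Q := Submodule.span K {u | ∃ e ∈ LinearMap.range (T ^ N),
    ∃ f ∈ LinearMap.range (T ^ N), ⁅e, f⁆ = u}
  have hW1 : ∀ u ∈ W, T u ∈ W := by
    intro u hu
    induction hu using Submodule.span_induction with
    | mem u hu =>
      obtain ⟨e, he, f, hf, rfl⟩ := hu
      have e1 : T ⁅e, f⁆ = ⁅T e, f⁆ + ⁅e, T f⁆ := by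
        simp only [hT, LieAlgebra.ad_apply]
        exact leibniz_lie x e f
      rw [e1]
      refine Submodule.add_mem _ (Submodule.subset_span ⟨T e, ?_, f, hf, rfl⟩)
        (Submodule.subset_span ⟨e, he, T f, ?_, rfl⟩)
      · simpa using hstab e he 1
      · simpa using hstab f hf 1
    | zero => rw [map_zero]; exact Submodule.zero_mem _
    | add u v _ _ h1 h2 => rw [map_add]; exact Submodule.add_mem _ h1 h2
    | smul a u _ h1 => rw [map_smul]; exact Submodule.smul_mem _ _ h1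
  have hWm : ∀ (m : ℕ), ∀ u ∈ W, (T ^ m) u ∈ W := by
    intro m
    induction m with
    | zero => intro u hu; simpa using hu
    | succ m ih => intro u hu; rw [pow_succ', Module.End.mul_apply]; exact hW1 _ (ih u hu)
  have hW2 : ∀ u ∈ W, ∃ v ∈ W, T v = u := by
    intro u hu
    induction hu using Submodule.span_induction with
    | mem u hu =>
      obtain ⟨e, he, f, hf, rfl⟩ := hu
      obtain ⟨e', he', rfl⟩ := hsur e he k
      refine ⟨∑ j ∈ Finset.range k, γ j • (T ^ (k - j - 1)) ⁅(T ^ j) e', f⁆, ?_, ?_⟩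
      · refine Submodule.sum_mem _ fun j _ => Submodule.smul_mem _ _ (hWm _ _ ?_)
        exact Submodule.subset_span ⟨_, hstab e' he' j, f, hf, rfl⟩
      · rw [map_sum, h x e' f]
        refine Finset.sum_congr rfl fun j hj => ?_
        rw [map_smul, ← Module.End.mul_apply, ← pow_succ']
        have : k - j - 1 + 1 = k - j := by have := Finset.mem_range.1 hj; omega
        rw [this]
    | zero => exact ⟨0, Submodule.zero_mem _, map_zero _⟩
    | add u v _ _ h1 h2 =>
      obtain ⟨u', hu', rfl⟩ := h1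
      obtain ⟨v', hv', rfl⟩ := h2
      exact ⟨u' + v', Submodule.add_mem _ hu' hv', map_add _ _ _⟩
    | smul a u _ h1 =>
      obtain ⟨u', hu', rfl⟩ := h1
      exact ⟨a • u', Submodule.smul_mem _ _ hu', map_smul _ _ _⟩
  have hW3 : ∀ (m : ℕ), ∀ u ∈ W, ∃ v ∈ W, (T ^ m) v = u := by
    intro m
    induction m with
    | zero => intro u hu; exact ⟨u, hu, rfl⟩
    | succ m ih =>
      intro u hu
      obtain ⟨v, hv, rfl⟩ := ih u hu
      obtain ⟨w, hw, rfl⟩ := hW2 v hv
      exact ⟨w, hw, by rw [pow_succ, Module.End.mul_apply]⟩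
  have hW4 : ∀ u ∈ W, u ∈ LinearMap.range (T ^ N) := by
    intro u hu
    obtain ⟨v, _, rfl⟩ := hW3 N u hu
    exact ⟨v, rfl⟩
  refine ⟨{ (LinearMap.range (T ^ N) : Submodule K Q) with
    lie_mem := ?_ }, ?_, ?_⟩
  · intro y z hz
    change ⁅y, z⁆ ∈ LinearMap.range (T ^ N)
    have hz' : z ∈ LinearMap.range (T ^ N) := hz
    obtain ⟨y0, hy0, y1, hy1, rfl⟩ := Submodule.mem_sup.1
      (hN.sup_eq_top ▸ Submodule.mem_top (x := y))
    rw [add_lie]
    refine Submodule.add_mem _ ?_ ?_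
    · obtain ⟨u, hu⟩ := hNm (N + N) hz'
      rw [← hu]
      exact lie_ker_range x N y0 (LinearMap.mem_ker.1 hy0) N u
    · exact hW4 _ (Submodule.subset_span ⟨y1, hy1, z, hz', rfl⟩)
  · intro hx
    have hx' : x ∈ LinearMap.range (T ^ N) := hx
    have h0 : x ∈ LinearMap.ker (T ^ N) := by
      obtain ⟨n, rfl⟩ := Nat.exists_eq_add_of_le hN1
      rw [LinearMap.mem_ker, add_comm, pow_succ, Module.End.mul_apply, hT, LieAlgebra.ad_apply,
        lie_self, map_zero]
    exact (Submodule.mem_bot K).1 (hN.disjoint.le_bot ⟨h0, hx'⟩)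
  · intro hI
    refine ⟨N, ?_⟩
    ext z
    have hz : (T ^ N) z ∈ LinearMap.range (T ^ N) := ⟨z, rfl⟩
    have h1 : (T ^ N) z ∈ (⊥ : LieIdeal K Q) := by rw [← hI]; exact hz
    rw [LieSubmodule.mem_bot] at h1
    rw [h1]
    rfl

end Pool.Agent.Lib.MP_8f946f_al.BD
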