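import Pool.Agent.Lib.MP_8f946f_al.BD.Defs

/-!
# Ideals of small codimension of a finitely generated free Lie algebra over a finite field
-/

set_option autoImplicit false

namespace Pool.Agent.Lib.MP_8f946f_al.BD

variable (F : Type) [Field F]

namespace IdxM

section transport

variable {F} {P₁ P₂ : Type} [LieRing P₁] [LieAlgebra F P₁] [LieRing P₂] [LieAlgebra F P₂]
  {n : ℕ} (b₁ : Module.Basis (Fin n) F P₁) (b₂ : Module.Basis (Fin n) F P₂)

/-- A linear equivalence which respects the structure constants is a morphism. -/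
theorem equiv_lie (h : ∀ i j k, b₁.repr ⁅b₁ i, b₁ j⁆ k = b₂.repr ⁅b₂ i, b₂ j⁆ k) (u v : P₁) :
    (b₁.equiv b₂ (Equiv.refl _)) ⁅u, v⁆ =
      ⁅(b₁.equiv b₂ (Equiv.refl _)) u, (b₁.equiv b₂ (Equiv.refl _)) v⁆ := by
  set e := b₁.equiv b₂ (Equiv.refl _) with he
  have heb : ∀ i, e (b₁ i) = b₂ i := fun i => by
    rw [he, Module.Basis.equiv_apply]; rfl
  have hrep : ∀ (w : P₁) (k : Fin n), b₂.repr (e w) k = b₁.repr w k := by
    intro w k
    have h1 : w = ∑ i, b₁.repr w i • b₁ i := (b₁.sum_repr w).symm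
    conv_lhs => rw [h1]
    rw [map_sum]
    simp only [map_smul, heb]
    rw [Module.Basis.repr_sum_self]
  have hbb : ∀ i j, e ⁅b₁ i, b₁ j⁆ = ⁅e (b₁ i), e (b₁ j)⁆ := by
    intro i j
    apply b₂.ext_elem
    intro k
    rw [hrep, heb, heb, h]
  have h1 : ∀ (w : P₁) (i : Fin n), e ⁅b₁ i, w⁆ = ⁅e (b₁ i), e w⁆ := by
    intro w i
    conv_lhs => rw [← b₁.sum_repr w]
    conv_rhs => rw [← b₁.sum_repr w]
    rw [lie_sum, map_sum, map_sum, lie_sum]
    refine Finset.sum_congr rfl fun j _ => ?_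
    rw [lie_smul, map_smul, map_smul, lie_smul, hbb]
  conv_lhs => rw [← b₁.sum_repr u]
  conv_rhs => rw [← b₁.sum_repr u]
  rw [sum_lie, map_sum, map_sum, sum_lie]
  refine Finset.sum_congr rfl fun j _ => ?_
  rw [smul_lie, map_smul, map_smul, smul_lie, h1]

variable {X : Type}

/-- Two morphisms from a free Lie algebra with the same code have the same kernel. -/
theorem ker_le (h : ∀ i j k, b₁.repr ⁅b₁ i, b₁ j⁆ k = b₂.repr ⁅b₂ i, b₂ j⁆ k)
    (θ₁ : FreeLieAlgebra F X →ₗ⁅F⁆ P₁) (θ₂ : FreeLieAlgebra F X →ₗ⁅F⁆ P₂)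
    (hx : ∀ x k, b₁.repr (θ₁ (FreeLieAlgebra.of F x)) k = b₂.repr (θ₂ (FreeLieAlgebra.of F x)) k) :
    θ₁.ker ≤ θ₂.ker := by
  let e' : P₁ →ₗ⁅F⁆ P₂ :=
    { (b₁.equiv b₂ (Equiv.refl _)).toLinearMap with
      map_lie' := fun {u v} => equiv_lie b₁ b₂ h u v }
  have he : ∀ w, e' w = (b₁.equiv b₂ (Equiv.refl _)) w := fun _ => rfl
  have hcomp : e'.comp θ₁ = θ₂ := by
    apply FreeLieAlgebra.hom_ext
    intro x
    rw [LieHom.comp_apply, he]
    apply b₂.ext_elem
    intro k
    rw [← hx]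
    have h1 : ∀ w : P₁, b₂.repr ((b₁.equiv b₂ (Equiv.refl _)) w) k = b₁.repr w k := by
      intro w
      conv_lhs => rw [← b₁.sum_repr w]
      rw [map_sum]
      simp only [map_smul, Module.Basis.equiv_apply, Equiv.refl_apply]
      rw [Module.Basis.repr_sum_self]
    exact h1 _
  intro u hu
  rw [LieHom.mem_ker] at hu ⊢
  rw [← hcomp, LieHom.comp_apply, hu, map_zero]

end transport

variable (X : Type) (N : ℕ)

/-- Structure constants of a Lie algebra of dimension at most `N` and images of the generators. -/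
abbrev Code : Type := Σ n : Fin (N + 1), (Fin n → Fin n → Fin n → F) × (X → Fin n → F)

variable {F X N}

/-- The ideal `J` is the kernel of a morphism with code `c`. -/
def Real (c : Code F X N) (J : LieIdeal F (FreeLieAlgebra F X)) : Prop :=
  ∃ (P : Type) (_ : LieRing P) (_ : LieAlgebra F P) (b : Module.Basis (Fin c.1) F P)
    (θ : FreeLieAlgebra F X →ₗ⁅F⁆ P), (∀ i j k, b.repr ⁅b i, b j⁆ k = c.2.1 i j k) ∧
    (∀ x k, b.repr (θ (FreeLieAlgebra.of F x)) k = c.2.2 x k) ∧ J = θ.ker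

theorem Real.uniq {c : Code F X N} {J J' : LieIdeal F (FreeLieAlgebra F X)} (h : Real c J)
    (h' : Real c J') : J ≤ J' := by
  obtain ⟨P, _, _, b, θ, h1, h2, rfl⟩ := h
  obtain ⟨P', _, _, b', θ', h1', h2', rfl⟩ := h'
  exact ker_le b b' (fun i j k => by rw [h1, h1']) θ θ' (fun x k => by rw [h2, h2'])

theorem Real.fin {c : Code F X N} {J : LieIdeal F (FreeLieAlgebra F X)} (h : Real c J) :
    FiniteDimensional F (FreeLieAlgebra F X ⧸ J) := by
  obtain ⟨P, _, _, b, θ, -, -, rfl⟩ := h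
  have : FiniteDimensional F P := Module.Finite.of_basis b
  let φ : (FreeLieAlgebra F X ⧸ θ.ker) →ₗ[F] P :=
    (LinearMap.ker (θ : FreeLieAlgebra F X →ₗ[F] P)).liftQ (θ : FreeLieAlgebra F X →ₗ[F] P) le_rfl
  have hφ : Function.Injective φ := by
    rw [← LinearMap.ker_eq_bot]
    exact Submodule.ker_liftQ_eq_bot _ _ _ le_rfl
  exact FiniteDimensional.of_injective φ hφ

end IdxM

open IdxM

variable [Finite F] (X : Type) [Finite X] (N : ℕ)

/-- Over a finite field the free Lie algebra on a finite set has an ideal of finite codimension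
which is in the kernel of all morphisms to Lie algebras of dimension at most `N`. -/
theorem idx : ∃ J : LieIdeal F (FreeLieAlgebra F X),
    FiniteDimensional F (FreeLieAlgebra F X ⧸ J) ∧
    ∀ (P : Type) [LieRing P] [LieAlgebra F P], FiniteDimensional F P → Module.finrank F P ≤ N →
      ∀ θ : FreeLieAlgebra F X →ₗ⁅F⁆ P, ∀ u ∈ J, θ u = 0 := by
  classical
  have hfinCode : Finite (Code F X N) := inferInstance
  let K : Code F X N → LieIdeal F (FreeLieAlgebra F X) := fun c =>
    if h : ∃ J, Real c J then h.choose else ⊤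
  have hKr : ∀ c (J : LieIdeal F (FreeLieAlgebra F X)), Real c J → K c ≤ J := by
    intro c J hJ
    have h : ∃ J, Real c J := ⟨J, hJ⟩
    have e : K c = h.choose := dif_pos h
    rw [e]
    exact h.choose_spec.uniq hJ
  have hKf : ∀ c, FiniteDimensional F (FreeLieAlgebra F X ⧸ (K c).toSubmodule) := by
    intro c
    by_cases h : ∃ J, Real c J
    · have e : K c = h.choose := dif_pos h
      rw [e]
      exact h.choose_spec.fin
    · have e : K c = ⊤ := dif_neg h
      rw [e]
      have : Subsingleton (FreeLieAlgebra F X ⧸ (⊤ : LieIdeal F (FreeLieAlgebra F X)).toSubmodule) := by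
        rw [LieSubmodule.top_toSubmodule]
        infer_instance
      infer_instance
  refine ⟨⨅ c, K c, ?_, ?_⟩
  · let Φ : FreeLieAlgebra F X →ₗ[F] (∀ c, FreeLieAlgebra F X ⧸ (K c).toSubmodule) :=
      LinearMap.pi fun c => (K c).toSubmodule.mkQ
    have hker : LinearMap.ker Φ = (⨅ c, K c : LieIdeal F (FreeLieAlgebra F X)).toSubmodule := by
      rw [LinearMap.ker_pi, LieSubmodule.iInf_toSubmodule]
      simp only [Submodule.ker_mkQ]
    have := hKf
    have : Fintype (Code F X N) := Fintype.ofFinite _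
    let φ : (FreeLieAlgebra F X ⧸ (⨅ c, K c : LieIdeal F (FreeLieAlgebra F X))) →ₗ[F]
        (∀ c, FreeLieAlgebra F X ⧸ (K c).toSubmodule) :=
      (⨅ c, K c : LieIdeal F (FreeLieAlgebra F X)).toSubmodule.liftQ Φ hker.ge
    have hφ : Function.Injective φ := by
      rw [← LinearMap.ker_eq_bot]
      exact Submodule.ker_liftQ_eq_bot _ _ _ hker.le
    exact FiniteDimensional.of_injective φ hφ
  · intro P _ _ hP hN θ u hu
    let b : Module.Basis (Fin (Module.finrank F P)) F P := Module.finBasis F P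
    let c : Code F X N := ⟨⟨Module.finrank F P, Nat.lt_succ_of_le hN⟩,
      (fun i j k => b.repr ⁅b i, b j⁆ k), (fun x k => b.repr (θ (FreeLieAlgebra.of F x)) k)⟩
    have hc : Real c θ.ker := ⟨P, inferInstance, inferInstance, b, θ, fun _ _ _ => rfl,
      fun _ _ => rfl, rfl⟩
    have h1 : u ∈ K c := (LieSubmodule.mem_iInf _).1 hu c
    exact (LieHom.mem_ker).1 (hKr c _ hc h1)

/-- `idx` with implicit arguments. -/
theorem exists_index_ideal {F X : Type} [Field F] [Finite F] [Finite X] (N : ℕ) :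
    ∃ J : LieIdeal F (FreeLieAlgebra F X), FiniteDimensional F (FreeLieAlgebra F X ⧸ J) ∧
      ∀ (P : Type) [LieRing P] [LieAlgebra F P], FiniteDimensional F P →
        Module.finrank F P ≤ N → ∀ θ : FreeLieAlgebra F X →ₗ⁅F⁆ P, ∀ u ∈ J, θ u = 0 :=
  idx F X N

end Pool.Agent.Lib.MP_8f946f_al.BD
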