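import Pool.Agent.Lib.MP_8f946f_al.BD.Fit

/-!
# Finite dimensional algebras with the homogeneous monic identity are soluble
-/

set_option autoImplicit false

namespace Pool.Agent.Lib.MP_8f946f_al.BD

open LieAlgebra

variable {K Q : Type} [Field K] [LieRing Q] [LieAlgebra K Q]

theorem ad_pow_map {Q' : Type} [LieRing Q'] [LieAlgebra K Q'] (φ : Q →ₗ⁅K⁆ Q') (x y : Q)
    (n : ℕ) : φ (((ad K Q x) ^ n) y) = ((ad K Q' (φ x)) ^ n) (φ y) := by
  induction n with
  | zero => rfl
  | succ n ih =>
    rw [pow_succ', pow_succ', Module.End.mul_apply, Module.End.mul_apply, ← ih, ad_apply,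
      ad_apply, LieHom.map_lie]

/-- `HM` passes to subalgebras. -/
theorem HM.of_injective {Q' : Type} [LieRing Q'] [LieAlgebra K Q'] (φ : Q' →ₗ⁅K⁆ Q)
    (hφ : Function.Injective φ) {k : ℕ} {γ : ℕ → K} (h : HM K Q k γ) : HM K Q' k γ := by
  intro x f g
  apply hφ
  rw [LieHom.map_lie, ad_pow_map, h, map_sum]
  refine Finset.sum_congr rfl fun j _ => ?_
  rw [map_smul, ad_pow_map, LieHom.map_lie, ad_pow_map]

/-- `HM` passes to quotients. -/
theorem HM.of_surjective {Q' : Type} [LieRing Q'] [LieAlgebra K Q'] (φ : Q →ₗ⁅K⁆ Q')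
    (hφ : Function.Surjective φ) {k : ℕ} {γ : ℕ → K} (h : HM K Q k γ) : HM K Q' k γ := by
  intro x f g
  obtain ⟨x, rfl⟩ := hφ x
  obtain ⟨f, rfl⟩ := hφ f
  obtain ⟨g, rfl⟩ := hφ g
  rw [← ad_pow_map, ← LieHom.map_lie, h, map_sum]
  refine Finset.sum_congr rfl fun j _ => ?_
  rw [map_smul, ad_pow_map, LieHom.map_lie, ad_pow_map]

/-- the projection `Q → Q/I` -/
def qm (I : LieIdeal K Q) : Q →ₗ⁅K⁆ Q ⧸ I :=
  { (LieSubmodule.Quotient.mk' I : Q →ₗ[K] Q ⧸ I) with map_lie' := fun {_ _} => rfl }

theorem qm_surj (I : LieIdeal K Q) : Function.Surjective (qm I) :=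
  LieSubmodule.Quotient.surjective_mk' I

theorem qm_ker (I : LieIdeal K Q) (x : Q) : qm I x = 0 ↔ x ∈ I :=
  LieSubmodule.Quotient.mk_eq_zero (N := I) (m := x)

/-- extensions of soluble algebras are soluble -/
theorem solvable_of_ideal (I : LieIdeal K Q) (h1 : IsSolvable I) (h2 : IsSolvable (Q ⧸ I)) :
    IsSolvable Q := by
  obtain ⟨k, hk⟩ := (isSolvable_iff K (Q ⧸ I)).1 h2
  obtain ⟨l, hl⟩ := (isSolvable_iff K I).1 h1
  rw [LieIdeal.derivedSeries_eq_bot_iff] at hl
  rw [isSolvable_iff K Q]
  refine ⟨l + k, ?_⟩
  rw [derivedSeries_def, derivedSeriesOfIdeal_add, eq_bot_iff, ← hl]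
  have hle : derivedSeriesOfIdeal K Q k ⊤ ≤ I := by
    intro x hx
    rw [← qm_ker]
    have h3 : qm I x ∈ (derivedSeries K Q k).map (qm I) := LieIdeal.mem_map hx
    have h4 := LieIdeal.derivedSeries_map_le (f := qm I) k h3
    rw [hk] at h4
    exact (LieSubmodule.mem_bot _).1 h4
  exact derivedSeriesOfIdeal_le hle le_rfl

theorem solvable_of_HM [FiniteDimensional K Q] {k : ℕ} {γ : ℕ → K} (h : HM K Q k γ) :
    IsSolvable Q := by
  obtain ⟨n, hn⟩ : ∃ n, Module.finrank K Q = n := ⟨_, rfl⟩
  induction n using Nat.strong_induction_on generalizing Q with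
  | _ n ih =>
    by_cases hnil : ∀ x : Q, IsNilpotent (ad K Q x)
    · have : LieRing.IsNilpotent Q := (LieAlgebra.isNilpotent_iff_forall (R := K)).2 hnil
      infer_instance
    · push Not at hnil
      obtain ⟨x, hx⟩ := hnil
      obtain ⟨I, hI, hIb⟩ := one_ideal h x
      have hI0 : I ≠ ⊥ := fun e => hx (hIb e)
      have hIt : I ≠ ⊤ := by
        rintro rfl
        have h4 : x = 0 := hI (LieSubmodule.mem_top x)
        apply hx
        rw [h4, map_zero]
        exact IsNilpotent.zero
      have e := Submodule.finrank_quotient_add_finrank I.toSubmodule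
      have f1 : Module.finrank K I.toSubmodule < n := by
        rw [← hn]
        refine Submodule.finrank_lt ?_
        rwa [Ne, LieSubmodule.toSubmodule_eq_top]
      have f2 : 0 < Module.finrank K I.toSubmodule := by
        rw [Nat.pos_iff_ne_zero, Ne, Submodule.finrank_eq_zero, LieSubmodule.toSubmodule_eq_bot]
        exact hI0
      have g1 : IsSolvable I := ih _ f1 (h.of_injective I.incl Subtype.val_injective) rfl
      have f3 : Module.finrank K (Q ⧸ I) < n := by
        have : Module.finrank K (Q ⧸ I) = Module.finrank K (Q ⧸ I.toSubmodule) := rfl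
        omega
      have g2 : IsSolvable (Q ⧸ I) := ih _ f3 (h.of_surjective (qm I) (qm_surj I)) rfl
      exact solvable_of_ideal I g1 g2

/-- the derived length of a soluble algebra is at most its dimension -/
theorem derived_finrank [FiniteDimensional K Q] (h : IsSolvable Q) :
    derivedSeries K Q (Module.finrank K Q) = ⊥ := by
  obtain ⟨m, hm⟩ := (isSolvable_iff K Q).1 h
  have key : ∀ k, derivedSeries K Q k = ⊥ ∨
      Module.finrank K (derivedSeries K Q k).toSubmodule + k ≤ Module.finrank K Q := by
    intro k
    induction k with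
    | zero =>
      right
      have := Submodule.finrank_le (derivedSeries K Q 0).toSubmodule
      omega
    | succ k ih =>
      have hle : derivedSeries K Q (k + 1) ≤ derivedSeries K Q k :=
        derivedSeriesOfIdeal_antitone _ (Nat.le_succ k)
      rcases ih with ih | ih
      · left; rw [eq_bot_iff, ← ih]; exact hle
      · by_cases hb : derivedSeries K Q k = ⊥
        · left; rw [eq_bot_iff, ← hb]; exact hle
        right
        have hne : derivedSeries K Q (k + 1) ≠ derivedSeries K Q k := by
          intro e
          apply hb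
          have e' : ⁅derivedSeries K Q k, derivedSeries K Q k⁆ = derivedSeries K Q k := by
            conv_rhs => rw [← e]
            rw [derivedSeries_def, derivedSeries_def, derivedSeriesOfIdeal_succ]
          have : ∀ j, derivedSeries K Q (k + j) = derivedSeries K Q k := by
            intro j
            induction j with
            | zero => rfl
            | succ j ihj =>
              rw [← add_assoc, derivedSeries_def, derivedSeriesOfIdeal_succ, ← derivedSeries_def,
                ihj, e']
          rw [← this m, eq_bot_iff, ← hm]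
          exact derivedSeriesOfIdeal_antitone _ (by omega)
        have hlt : (derivedSeries K Q (k + 1)).toSubmodule < (derivedSeries K Q k).toSubmodule :=
          lt_of_le_of_ne hle (fun e => hne (LieSubmodule.toSubmodule_injective e))
        have := Submodule.finrank_lt_finrank_of_lt hlt
        omega
  rcases key (Module.finrank K Q) with h1 | h1
  · exact h1
  · have : Module.finrank K (derivedSeries K Q (Module.finrank K Q)).toSubmodule = 0 := by
      omega
    rw [Submodule.finrank_eq_zero, LieSubmodule.toSubmodule_eq_bot] at this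
    exact this

/-- A finite dimensional algebra with the homogeneous monic identity is soluble, of derived length
at most its dimension. -/
theorem derived_bot [FiniteDimensional K Q] {k : ℕ} {γ : ℕ → K} (h : HM K Q k γ) (d : ℕ)
    (hd : Module.finrank K Q ≤ d) : LieAlgebra.derivedSeries K Q d = ⊥ := by
  rw [eq_bot_iff, ← derived_finrank (solvable_of_HM h)]
  exact derivedSeriesOfIdeal_antitone _ hd

end Pool.Agent.Lib.MP_8f946f_al.BD
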